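import Pool.Agent.Y178.ZN.Base

/-!
# Certificates for the zonoid approximation constant: `ℓ₁`-sums

If bodies `K_i` have certificates for `λ(K_i) ≥ λ_i`, then their `ℓ₁`-sum has a certificate for
`λ ≥ E |∑ ε_i λ_i|`, the `ε_i` independent random signs.
-/

set_option autoImplicit false
open scoped Pointwise
open Filter Topology

namespace Pool.Agent.Y178.ZN

/-- from a certificate to a body -/
theorem HasCert.body {n : ℕ} {Λ : ℝ} (hn : 1 ≤ n) (h : HasCert n Λ) :
    ∃ K : Set (EuclideanSpace ℝ (Fin n)), IsSymmBody K ∧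
      ∀ c : ℝ, 1 ≤ c → ∀ Z : Set (EuclideanSpace ℝ (Fin n)), IsZonoid Z → K ⊆ Z →
        Z ⊆ c • K → Λ ≤ c := by
  obtain ⟨ι, κ, _, _, hκ, w, α, b, hw, hα, ⟨C, hC, hC2⟩, hwb, hineq, hΛ⟩ := h
  have hne : Nonempty ι := by
    by_contra hc
    rw [not_nonempty_iff] at hc
    have h1 := hC2 (EuclideanSpace.single ⟨0, hn⟩ 1)
    rw [Fintype.sum_empty, mul_zero, PiLp.norm_single, norm_one] at h1
    linarith
  refine ⟨hullK w, hullK_body w (1 / (C + 1)) (by positivity) ?_, ?_⟩
  · intro v
    have h1 := hC2 v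
    have h2 : 0 ≤ ∑ i, |inner ℝ (w i) v| := Finset.sum_nonneg fun _ _ => abs_nonneg _
    rw [div_mul_eq_mul_div, one_mul, div_le_iff₀ (by positivity)]
    nlinarith
  · intro c hc Z hZ h1 h2
    have hc0 : 0 ≤ c := by linarith
    have hmem : ∀ i, w i ∈ hullK w := fun i => subset_convexHull ℝ _ (Or.inl ⟨i, rfl⟩)
    have hmem' : ∀ i, - w i ∈ hullK w := fun i => subset_convexHull ℝ _ (Or.inr ⟨i, rfl⟩)
    have hκ0 : (0:ℝ) < Fintype.card κ := by exact_mod_cast Fintype.card_pos
    have key := zonoid_ineq hZ (fun i => α i • w i) b (1 / Fintype.card κ) (by positivity) (by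
        intro v
        have e : ∀ i, |inner ℝ (α i • w i) v| = α i * |inner ℝ (w i) v| := by
          intro i
          rw [real_inner_smul_left, abs_mul, abs_of_nonneg (hα i)]
        simp only [e]
        rw [one_div, inv_mul_eq_div]
        exact hineq v) w (fun i => - w i) (fun i => h1 (hmem i))
      (fun i => h1 (hmem' i)) (fun _ => c) (by
        intro j x hx
        obtain ⟨y, hy, rfl⟩ := h2 hx
        show |inner ℝ (b j) (c • y)| ≤ c
        rw [real_inner_smul_right, abs_mul, abs_of_nonneg hc0]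
        have := hullK_inner_le w (b j) 1 (fun i => hwb i j) y hy
        nlinarith)
    have e1 : ∀ i, inner ℝ (α i • w i) (w i - - w i) = 2 * α i := by
      intro i
      rw [real_inner_smul_left, sub_neg_eq_add, inner_add_right, real_inner_self_eq_norm_sq,
        hw i]
      ring
    simp only [e1, Finset.sum_const, Finset.card_univ, nsmul_eq_mul] at key
    rw [← Finset.mul_sum] at key
    have e2 : 1 / (Fintype.card κ : ℝ) * (Fintype.card κ * (2 * c)) = 2 * c := by field_simp
    rw [e2] at key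
    linarith

/-- flipping signs of the entries does not change the sum over all sign vectors -/
theorem flip_signs {I : Type} [Fintype I] [DecidableEq I] (y y' : I → ℝ)
    (h : ∀ i, y' i = y i ∨ y' i = - y i) :
    ∑ ε : I → Bool, |∑ i, sgE (ε i) * y' i| = ∑ ε : I → Bool, |∑ i, sgE (ε i) * y i| := by
  classical
  let η : I → Bool := fun i => decide (y' i = y i)
  have hinv : Function.Involutive (fun (ε : I → Bool) (i : I) => if η i then ε i else !ε i) := by
    intro ε
    funext i
    simp only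
    split_ifs <;> simp
  have h1 := Equiv.sum_comp (Function.Involutive.toPerm _ hinv)
    (fun ε : I → Bool => |∑ i, sgE (ε i) * y i|)
  rw [← h1]
  apply Finset.sum_congr rfl
  intro ε _
  congr 1
  apply Finset.sum_congr rfl
  intro i _
  show sgE (ε i) * y' i = sgE (if η i then ε i else !ε i) * y i
  by_cases hi : y' i = y i
  · have hη : η i = true := decide_eq_true hi
    rw [hη, hi]
    simp
  · have hη : η i = false := decide_eq_false hi
    have h2 : y' i = - y i := (h i).resolve_left hi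
    rw [hη, h2]
    simp [sgE_not]

section weights

variable {I : Type} [Fintype I] [DecidableEq I]

/-- the sign of `∑ ε_i λ_i` -/
noncomputable def tau (lam : I → ℝ) (ε : I → Bool) : ℝ :=
  if 0 ≤ ∑ i, sgE (ε i) * lam i then 1 else -1

theorem tau_mul_le (lam : I → ℝ) (ε : I → Bool) (x : ℝ) : tau lam ε * x ≤ |x| := by
  unfold tau
  split_ifs
  · rw [one_mul]; exact le_abs_self x
  · rw [neg_one_mul]; exact neg_le_abs x

theorem tau_mul_self (lam : I → ℝ) (ε : I → Bool) :
    tau lam ε * ∑ i, sgE (ε i) * lam i = |∑ i, sgE (ε i) * lam i| := by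
  unfold tau
  split_ifs with h
  · rw [one_mul, abs_of_nonneg h]
  · rw [neg_one_mul, abs_of_neg (not_le.1 h)]

/-- the weights -/
noncomputable def pw (lam : I → ℝ) (i : I) : ℝ :=
  (∑ ε : I → Bool, tau lam ε * sgE (ε i)) / 2 ^ Fintype.card I

theorem pw_sum (lam y : I → ℝ) :
    ∑ ε : I → Bool, tau lam ε * ∑ i, sgE (ε i) * y i =
      2 ^ Fintype.card I * ∑ i, pw lam i * y i := by
  have h2 : (2:ℝ) ^ Fintype.card I ≠ 0 := by positivity
  simp only [Finset.mul_sum]
  rw [Finset.sum_comm]
  apply Finset.sum_congr rfl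
  intro i _
  unfold pw
  have : (2:ℝ) ^ Fintype.card I * ((∑ ε : I → Bool, tau lam ε * sgE (ε i)) /
      2 ^ Fintype.card I * y i) = (∑ ε : I → Bool, tau lam ε * sgE (ε i)) * y i := by
    field_simp
  rw [this, Finset.sum_mul]
  apply Finset.sum_congr rfl
  intro ε _
  ring

theorem pw_ineq (lam y : I → ℝ) : ∑ i, |pw lam i| * |y i| ≤
    (∑ ε : I → Bool, |∑ i, sgE (ε i) * y i|) / 2 ^ Fintype.card I := by
  have h2 : (0:ℝ) < 2 ^ Fintype.card I := by positivity
  rw [le_div_iff₀ h2]
  let y' : I → ℝ := fun i => if 0 ≤ pw lam i * y i then y i else - y i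
  have hy' : ∀ i, y' i = y i ∨ y' i = - y i := by
    intro i
    simp only [y']
    split_ifs
    · left; rfl
    · right; rfl
  rw [← flip_signs y y' hy']
  have e1 : ∀ i, |pw lam i| * |y i| = pw lam i * y' i := by
    intro i
    rw [← abs_mul]
    simp only [y']
    split_ifs with h
    · rw [abs_of_nonneg h]
    · rw [abs_of_neg (not_le.1 h)]; ring
  simp only [e1]
  rw [mul_comm, ← pw_sum]
  exact Finset.sum_le_sum fun ε _ => tau_mul_le lam ε _

theorem pw_val (lam : I → ℝ) (hlam : ∀ i, 0 ≤ lam i) :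
    (∑ ε : I → Bool, |∑ i, sgE (ε i) * lam i|) / 2 ^ Fintype.card I ≤
      ∑ i, |pw lam i| * lam i := by
  have h2 : (0:ℝ) < 2 ^ Fintype.card I := by positivity
  rw [div_le_iff₀ h2]
  have h1 := pw_sum lam lam
  simp only [tau_mul_self] at h1
  rw [h1, mul_comm]
  gcongr with i _
  · exact hlam i
  · exact le_abs_self _

end weights

/-- averages over a product -/
theorem avg_pi {I : Type} [Fintype I] [DecidableEq I] {κ : I → Type} [∀ i, Fintype (κ i)]
    [∀ i, Nonempty (κ i)] (i : I) (g : κ i → ℝ) :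
    (∑ l : ∀ j, κ j, g (l i)) / Fintype.card (∀ j, κ j) = (∑ x, g x) / Fintype.card (κ i) := by
  classical
  let e := Equiv.piSplitAt i κ
  have h1 : ∑ l : ∀ j, κ j, g (l i) = ∑ p : κ i × (∀ j : {j // j ≠ i}, κ j), g p.1 := by
    rw [← Equiv.sum_comp e (fun p : κ i × (∀ j : {j // j ≠ i}, κ j) => g p.1)]
    rfl
  have h2 : Fintype.card (∀ j, κ j) =
      Fintype.card (κ i) * Fintype.card (∀ j : {j // j ≠ i}, κ j) := by
    rw [Fintype.card_congr e, Fintype.card_prod]
  rw [h1, h2, Fintype.sum_prod_type]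
  simp only [Finset.sum_const, Finset.card_univ, nsmul_eq_mul]
  rw [← Finset.mul_sum]
  have h3 : (Fintype.card (κ i) : ℝ) ≠ 0 := by
    exact_mod_cast Fintype.card_ne_zero
  have h4 : (Fintype.card (∀ j : {j // j ≠ i}, κ j) : ℝ) ≠ 0 := by
    exact_mod_cast Fintype.card_ne_zero
  push_cast
  field_simp

/-- `ℓ₁`-sums of certificates -/
theorem HasCert.sum {I : Type} [Fintype I] [DecidableEq I] (N : I → ℕ) (lam : I → ℝ)
    (hlam : ∀ i, 0 ≤ lam i) (h : ∀ i, HasCert (N i) (lam i)) :
    HasCert (∑ i, N i)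
      ((∑ ε : I → Bool, |∑ i, sgE (ε i) * lam i|) / 2 ^ Fintype.card I) := by
  classical
  choose ι κ fι fκ hκ w α b hw hα hC hwb hineq hΛ using h
  choose C hC0 hC1 using hC
  have hfin : Module.finrank ℝ (PiLp 2 (fun i => EuclideanSpace ℝ (Fin (N i)))) = ∑ i, N i := by
    rw [(WithLp.linearEquiv 2 ℝ (∀ i, EuclideanSpace ℝ (Fin (N i)))).finrank_eq,
      Module.finrank_pi_fintype]
    simp
  let e : PiLp 2 (fun i => EuclideanSpace ℝ (Fin (N i))) ≃ₗᵢ[ℝ]
      EuclideanSpace ℝ (Fin (∑ i, N i)) :=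
    ((stdOrthonormalBasis ℝ (PiLp 2 (fun i => EuclideanSpace ℝ (Fin (N i))))).reindex
      (finCongr hfin)).repr
  let W : (Σ i, ι i) → PiLp 2 (fun i => EuclideanSpace ℝ (Fin (N i))) := fun p =>
    WithLp.toLp 2 (Pi.single p.1 (w p.1 p.2))
  let B : ((I → Bool) × (∀ i, κ i)) → PiLp 2 (fun i => EuclideanSpace ℝ (Fin (N i))) := fun q =>
    WithLp.toLp 2 (fun i => sgE (q.1 i) • b i (q.2 i))
  have hW : ∀ p u, inner ℝ (W p) u = inner ℝ (w p.1 p.2) (u p.1) := by
    intro p u
    rw [PiLp.inner_apply, Finset.sum_eq_single p.1]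
    · simp [W]
    · intro j _ hj
      simp [W, Pi.single_eq_of_ne hj]
    · intro h; exact absurd (Finset.mem_univ _) h
  have hB : ∀ q u, inner ℝ (B q) u = ∑ i, sgE (q.1 i) * inner ℝ (b i (q.2 i)) (u i) := by
    intro q u
    rw [PiLp.inner_apply]
    apply Finset.sum_congr rfl
    intro i _
    simp only [B]
    rw [real_inner_smul_left]
  have hWn : ∀ p, ‖W p‖ = 1 := by
    intro p
    have h1 := hW p (W p)
    rw [real_inner_self_eq_norm_sq] at h1
    have h2 : (W p) p.1 = w p.1 p.2 := by simp [W]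
    rw [h2, real_inner_self_eq_norm_sq, hw] at h1
    have h3 := norm_nonneg (W p)
    nlinarith
  refine ⟨Σ i, ι i, (I → Bool) × (∀ i, κ i), inferInstance, inferInstance, inferInstance,
    fun p => e (W p), fun p => |pw lam p.1| * α p.1 p.2, fun q => e (B q), ?_, ?_,
    ⟨∑ i, C i, Finset.sum_nonneg fun i _ => hC0 i, ?_⟩, ?_, ?_, ?_⟩
  · intro p
    rw [e.norm_map]
    exact hWn p
  · intro p
    exact mul_nonneg (abs_nonneg _) (hα _ _)
  · intro v
    obtain ⟨u, rfl⟩ := e.surjective v
    simp only [e.inner_map_map, hW, e.norm_map]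
    rw [Fintype.sum_sigma]
    have h1 : ‖u‖ ≤ ∑ i, ‖u i‖ := by
      have h2 : ‖u‖ ^ 2 = ∑ i, ‖u i‖ ^ 2 := PiLp.norm_sq_eq_of_L2 _ u
      have h3 : ∑ i, ‖u i‖ ^ 2 ≤ (∑ i, ‖u i‖) ^ 2 := by
        rw [sq, Finset.sum_mul]
        apply Finset.sum_le_sum
        intro i _
        rw [sq]
        gcongr
        exact Finset.single_le_sum (f := fun i => ‖u i‖) (fun j _ => norm_nonneg _)
          (Finset.mem_univ i)
      have h4 : 0 ≤ ∑ i, ‖u i‖ := Finset.sum_nonneg fun i _ => norm_nonneg _
      rw [← h2] at h3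
      exact le_of_sq_le_sq h3 h4
    refine h1.trans ?_
    rw [Finset.mul_sum]
    apply Finset.sum_le_sum
    intro i _
    refine (hC1 i (u i)).trans ?_
    apply mul_le_mul_of_nonneg_right
    · exact Finset.single_le_sum (f := fun i => C i) (fun j _ => hC0 j) (Finset.mem_univ i)
    · exact Finset.sum_nonneg fun _ _ => abs_nonneg _
  · intro p q
    rw [e.inner_map_map, real_inner_comm, hW]
    have h1 : (B q) p.1 = sgE (q.1 p.1) • b p.1 (q.2 p.1) := by simp [B]
    rw [h1, real_inner_smul_right, abs_mul]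
    have h2 : |sgE (q.1 p.1)| = 1 := by
      rcases Bool.eq_false_or_eq_true (q.1 p.1) with h | h <;> rw [h] <;> simp [sgE]
    rw [h2, one_mul, real_inner_comm]
    exact hwb _ _ _
  · intro v
    obtain ⟨u, rfl⟩ := e.surjective v
    simp only [e.inner_map_map, hW, hB]
    rw [Fintype.sum_sigma, Fintype.card_prod, Fintype.sum_prod_type]
    have hcard : Fintype.card (I → Bool) = 2 ^ Fintype.card I := by simp
    rw [hcard]
    have h0 : (0:ℝ) < Fintype.card (∀ i, κ i) := by exact_mod_cast Fintype.card_pos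
    have h2 : (0:ℝ) < 2 ^ Fintype.card I := by positivity
    calc ∑ i, ∑ k, |pw lam i| * α i k * |inner ℝ (w i k) (u i)|
        = ∑ i, |pw lam i| * ∑ k, α i k * |inner ℝ (w i k) (u i)| := by
          apply Finset.sum_congr rfl
          intro i _
          rw [Finset.mul_sum]
          apply Finset.sum_congr rfl
          intro k _
          ring
      _ ≤ ∑ i, |pw lam i| * ((∑ j, |inner ℝ (b i j) (u i)|) / Fintype.card (κ i)) := by
          apply Finset.sum_le_sum
          intro i _
          exact mul_le_mul_of_nonneg_left (hineq i (u i)) (abs_nonneg _)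
      _ = ∑ i, |pw lam i| * ((∑ l : ∀ j, κ j, |inner ℝ (b i (l i)) (u i)|) /
            Fintype.card (∀ j, κ j)) := by
          apply Finset.sum_congr rfl
          intro i _
          rw [avg_pi i (fun x => |inner ℝ (b i x) (u i)|)]
      _ = (∑ l : ∀ j, κ j, ∑ i, |pw lam i| * |inner ℝ (b i (l i)) (u i)|) /
            Fintype.card (∀ j, κ j) := by
          rw [Finset.sum_comm, Finset.sum_div]
          apply Finset.sum_congr rfl
          intro i _
          rw [← Finset.mul_sum, mul_div_assoc]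
      _ ≤ (∑ l : ∀ j, κ j, (∑ ε : I → Bool, |∑ i, sgE (ε i) * inner ℝ (b i (l i)) (u i)|) /
            2 ^ Fintype.card I) / Fintype.card (∀ j, κ j) := by
          gcongr with l _
          exact pw_ineq lam (fun i => inner ℝ (b i (l i)) (u i))
      _ = (∑ ε : I → Bool, ∑ l : ∀ j, κ j, |∑ i, sgE (ε i) * inner ℝ (b i (l i)) (u i)|) /
            ((2 ^ Fintype.card I * Fintype.card (∀ j, κ j) : ℕ) : ℝ) := by
          rw [← Finset.sum_div, Finset.sum_comm, div_div]
          push_cast
          rfl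
  · refine (pw_val lam hlam).trans ?_
    rw [Fintype.sum_sigma]
    apply Finset.sum_le_sum
    intro i _
    show |pw lam i| * lam i ≤ ∑ y, |pw lam i| * α i y
    rw [← Finset.mul_sum]
    exact mul_le_mul_of_nonneg_left (hΛ i) (abs_nonneg _)

/-- the trivial certificate -/
theorem cert_zero (r : ℕ) : HasCert r 0 := by
  refine ⟨Fin r, Unit, inferInstance, inferInstance, inferInstance,
    fun i => EuclideanSpace.single i 1, fun _ => 0, fun _ => 0, ?_, ?_, ⟨1, zero_le_one, ?_⟩,
    ?_, ?_, ?_⟩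
  · intro i
    rw [PiLp.norm_single, norm_one]
  · intro i
    exact le_rfl
  · intro v
    rw [one_mul]
    have h1 : ∀ i, inner ℝ (EuclideanSpace.single i (1:ℝ)) v = v i := by
      intro i
      rw [EuclideanSpace.inner_single_left]
      simp
    simp only [h1]
    exact norm_le_l1 r v
  · intro i j
    rw [inner_zero_left, abs_zero]
    exact zero_le_one
  · intro v
    simp
  · simp

/-- monotonicity in the dimension -/
theorem HasCert.mono {n m : ℕ} {Λ : ℝ} (hΛ : 0 ≤ Λ) (h : HasCert n Λ) (hnm : n ≤ m) :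
    HasCert m Λ := by
  obtain ⟨r, rfl⟩ := Nat.exists_eq_add_of_le hnm
  have h1 := HasCert.sum (I := Fin 2) (![n, r]) (![Λ, 0]) (by
    intro i
    fin_cases i
    · exact hΛ
    · exact le_rfl) (by
    intro i
    fin_cases i
    · exact h
    · exact cert_zero r)
  have h2 : ∑ i, (![n, r] : Fin 2 → ℕ) i = n + r := by
    simp [Fin.sum_univ_two]
  have h3 : (∑ ε : Fin 2 → Bool, |∑ i, sgE (ε i) * (![Λ, 0] : Fin 2 → ℝ) i|) /
      2 ^ Fintype.card (Fin 2) = Λ := by
    have h4 : ∀ ε : Fin 2 → Bool, |∑ i, sgE (ε i) * (![Λ, 0] : Fin 2 → ℝ) i| = Λ := by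
      intro ε
      simp only [Fin.sum_univ_two, Matrix.cons_val_zero, Matrix.cons_val_one, mul_zero, add_zero]
      rw [abs_mul, abs_of_nonneg hΛ]
      rcases Bool.eq_false_or_eq_true (ε 0) with h | h <;> rw [h] <;> simp [sgE]
    simp only [h4, Finset.sum_const, Finset.card_univ, nsmul_eq_mul, Fintype.card_fun,
      Fintype.card_bool, Fintype.card_fin]
    norm_num
  rw [h2, h3] at h1
  exact h1

end Pool.Agent.Y178.ZN
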