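import Mathlib

/-!
# Zonoids, the zonoid approximation constant, and the cross-polytope
-/

set_option autoImplicit false
open scoped Pointwise
open Filter Topology

namespace Pool.Agent.Y178.ZN

/-- A zonotope: a finite Minkowski sum of line segments. -/
def IsZonotope {E : Type*} [NormedAddCommGroup E] [InnerProductSpace ℝ E] (Z : Set E) : Prop :=
  ∃ (m : ℕ) (a b : Fin m → E), Z = ∑ i, segment ℝ (a i) (b i)

/-- A zonoid: a nonempty compact set that is a Hausdorff limit of zonotopes. -/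
def IsZonoid {E : Type*} [NormedAddCommGroup E] [InnerProductSpace ℝ E] (Z : Set E) : Prop :=
  IsCompact Z ∧ Z.Nonempty ∧
    ∃ P : ℕ → Set E, (∀ k, IsZonotope (P k)) ∧
      Tendsto (fun k => Metric.hausdorffDist (P k) Z) atTop (𝓝 0)

/-- Origin-symmetric convex bodies. -/
def IsSymmBody {E : Type*} [NormedAddCommGroup E] [InnerProductSpace ℝ E] (K : Set E) : Prop :=
  IsCompact K ∧ Convex ℝ K ∧ (interior K).Nonempty ∧ ∀ x ∈ K, -x ∈ K

/-- The numbers `c ≥ 1` for which some zonoid `Z` satisfies `K ⊆ Z ⊆ c K`. -/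
def zonoidRatios {E : Type*} [NormedAddCommGroup E] [InnerProductSpace ℝ E]
    (K : Set E) : Set ℝ :=
  {c : ℝ | 1 ≤ c ∧ ∃ Z : Set E, IsZonoid Z ∧ K ⊆ Z ∧ Z ⊆ c • K}

/-- The zonoid approximation constant `λ(K)`. -/
noncomputable def zonoidConst {E : Type*} [NormedAddCommGroup E] [InnerProductSpace ℝ E]
    (K : Set E) : ℝ :=
  sInf (zonoidRatios K)

/-- The cross-polytope `conv {± e_i}`. -/
def crossPolytope (n : ℕ) : Set (EuclideanSpace ℝ (Fin n)) :=
  convexHull ℝ {x | ∃ i : Fin n, x = EuclideanSpace.single i (1 : ℝ) ∨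
    x = -EuclideanSpace.single i (1 : ℝ)}

end Pool.Agent.Y178.ZN
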