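import Pool.Agent.Y178.ZN.Num

/-!
# The cross-polytope is not the worst body in all large dimensions

Let `4 ^ (s + 3) ≤ n < 4 ^ (s + 4)`.  According to the size of `n / 4 ^ s` one takes one of `30`
(or `29`) `ℓ₁`-sums of Kerdock bodies of dimensions `4 ^ (s + e)`, `0 ≤ e ≤ 3`, and adds unused
dimensions.
-/

set_option autoImplicit false
open scoped Pointwise
open Filter Topology

namespace Pool.Agent.Y178.ZN

/-- the conclusion, for one dimension and one constant -/
theorem conclude (n : ℕ) (hn : 2 ≤ n) (G : ℝ) (hG : 0 < G) (hW : 1 / G ≤ Real.Wallis.W (n / 2))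
    (Λ c : ℝ) (hc : 1 ≤ c) (h : HasCert n Λ) (hΛ : 0 ≤ Λ)
    (hlt : c ^ 2 * (G * n) < Λ ^ 2) :
    ∃ K : Set (EuclideanSpace ℝ (Fin n)), IsSymmBody K ∧
      (zonoidRatios K).Nonempty ∧ (zonoidRatios (crossPolytope n)).Nonempty ∧
      zonoidConst (crossPolytope n) < zonoidConst K ∧
      c * zonoidConst (crossPolytope n) ≤ zonoidConst K ∧ Λ ≤ zonoidConst K := by
  have hn1 : 1 ≤ n := by omega
  obtain ⟨K, hK, hKc⟩ := h.body hn1
  have h1 : Λ ≤ zonoidConst K := by
    apply le_csInf (zonoidConst_nonempty _ hn1 K hK)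
    rintro c ⟨hc1, Z, hZ, hKZ, hZK⟩
    exact hKc c hc1 Z hZ hKZ hZK
  have h2 := crossPolytope_le n hn1
  have h3 := mean_le n hn G hG hW
  set M : ℝ := (∑ ε : Fin n → Bool, |∑ i, (if ε i then (1:ℝ) else -1)|) / 2 ^ n with hM
  have hM0 : 0 ≤ M := by
    rw [hM]
    exact div_nonneg (Finset.sum_nonneg fun _ _ => abs_nonneg _) (by positivity)
  have h4 : c * M < Λ := by
    apply lt_of_pow_lt_pow_left₀ 2 hΛ
    calc (c * M) ^ 2 = c ^ 2 * M ^ 2 := by ring
      _ ≤ c ^ 2 * (G * n) := by gcongr
      _ < Λ ^ 2 := hlt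
  have hc0 : 0 ≤ c := by linarith
  have h5 : c * zonoidConst (crossPolytope n) < zonoidConst K := by
    calc c * zonoidConst (crossPolytope n) ≤ c * M := mul_le_mul_of_nonneg_left h2 hc0
      _ < Λ := h4
      _ ≤ zonoidConst K := h1
  have h6 : (0:ℝ) ≤ zonoidConst (crossPolytope n) := by
    apply Real.sInf_nonneg
    rintro x ⟨hx, -⟩
    linarith
  refine ⟨K, hK, zonoidConst_nonempty _ hn1 K hK, ⟨_, crossPolytope_mem _ hn1⟩, ?_, h5.le, h1⟩
  refine lt_of_le_of_lt ?_ h5
  nlinarith

/-- one of the ranges -/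
theorem step (u : ℕ) (hu : 10 ≤ u) (c G : ℝ) (l : List ℕ) (D D' : ℕ) (T : ℤ) (s n : ℕ)
    (hs : 3 ≤ s) (hus : (u : ℝ) ≤ 2 ^ s)
    (hD : (l.map (fun e => 4 ^ e)).sum = D) (hT : gsum u l 0 = T)
    (h1 : 4 ^ s * D ≤ n) (h2 : n < 4 ^ s * D') (hcG : 0 < c ^ 2 * G)
    (hpos : 0 ≤ T)
    (hnum : c ^ 2 * (G * (D' * (u : ℝ) ^ 2)) ≤ ((T : ℝ) / 2 ^ l.length) ^ 2) :
    ∃ Λ : ℝ, 0 ≤ Λ ∧ HasCert n Λ ∧ c ^ 2 * (G * n) < Λ ^ 2 := by
  have hc := cert_list u hu l s hs hus
  rw [hD, hT] at hc
  have hu0 : (0 : ℝ) < u := by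
    have : 0 < u := by omega
    exact_mod_cast this
  set v : ℝ := 2 ^ s with hv
  have hv0 : 0 < v := by rw [hv]; positivity
  have hT0 : (0 : ℝ) ≤ T := by exact_mod_cast hpos
  have hnn : 0 ≤ v / u * ((T : ℝ) / 2 ^ l.length) := by positivity
  refine ⟨v / u * ((T : ℝ) / 2 ^ l.length), hnn, hc.mono hnn h1, ?_⟩
  have hn' : (n : ℝ) < v ^ 2 * D' := by
    have h3 : (n : ℝ) < ((4 ^ s * D' : ℕ) : ℝ) := by exact_mod_cast h2
    have h4 : ((4 ^ s * D' : ℕ) : ℝ) = v ^ 2 * D' := by
      push_cast
      rw [hv, ← pow_mul, mul_comm s 2, pow_mul]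
      norm_num
    linarith
  calc c ^ 2 * (G * n) = c ^ 2 * G * n := by ring
    _ < c ^ 2 * G * (v ^ 2 * D') := by gcongr
    _ = (v / u) ^ 2 * (c ^ 2 * (G * (D' * (u : ℝ) ^ 2))) := by field_simp
    _ ≤ (v / u) ^ 2 * ((T : ℝ) / 2 ^ l.length) ^ 2 := by gcongr
    _ = (v / u * ((T : ℝ) / 2 ^ l.length)) ^ 2 := by ring

/-- dimensions at least `4 ^ 10` -/
theorem cert_a (s n : ℕ) (hs : 7 ≤ s) (h1 : 4 ^ s * 64 ≤ n) (h2 : n < 4 ^ s * 256) :
    ∃ Λ : ℝ, 0 ≤ Λ ∧ HasCert n Λ ∧ (1 : ℝ) ^ 2 * (63665 / 100000 * n) < Λ ^ 2 := by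
  have hus : ((128 : ℕ) : ℝ) ≤ 2 ^ s := by
    calc ((128 : ℕ) : ℝ) = 2 ^ 7 := by norm_num
      _ ≤ 2 ^ s := pow_le_pow_right₀ (by norm_num) hs
  rcases Nat.lt_or_ge n (4 ^ s * 98) with h | k0
  · exact step 128 (by norm_num) 1 (63665 / 100000) [3] 64 98 2028 s n (by omega) hus (by decide)
      (by decide +kernel) (le_trans (Nat.mul_le_mul_left _ (by norm_num)) h1) h
      (by norm_num) (by norm_num) (by norm_num)
  rcases Nat.lt_or_ge n (4 ^ s * 107) with h | k1
  · exact step 128 (by norm_num) 1 (63665 / 100000) [3, 2, 1, 1, 1, 1, 0, 0] 98 107 270592 s n (by omega) hus (by decide)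
      (by decide +kernel) (le_trans (Nat.mul_le_mul_left _ (by norm_num)) k0) h
      (by norm_num) (by norm_num) (by norm_num)
  rcases Nat.lt_or_ge n (4 ^ s * 114) with h | k2
  · exact step 128 (by norm_num) 1 (63665 / 100000) [3, 2, 2, 1, 1, 0, 0, 0] 107 114 280352 s n (by omega) hus (by decide)
      (by decide +kernel) (le_trans (Nat.mul_le_mul_left _ (by norm_num)) k1) h
      (by norm_num) (by norm_num) (by norm_num)
  rcases Nat.lt_or_ge n (4 ^ s * 123) with h | k3
  · exact step 128 (by norm_num) 1 (63665 / 100000) [3, 2, 2, 2] 112 123 18192 s n (by omega) hus (by decide)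
      (by decide +kernel) (le_trans (Nat.mul_le_mul_left _ (by norm_num)) k2) h
      (by norm_num) (by norm_num) (by norm_num)
  rcases Nat.lt_or_ge n (4 ^ s * 128) with h | k4
  · exact step 128 (by norm_num) 1 (63665 / 100000) [3, 2, 2, 2, 1, 1, 0, 0, 0] 123 128 592512 s n (by omega) hus (by decide)
      (by decide +kernel) (le_trans (Nat.mul_le_mul_left _ (by norm_num)) k3) h
      (by norm_num) (by norm_num) (by norm_num)
  rcases Nat.lt_or_ge n (4 ^ s * 130) with h | k5
  · exact step 128 (by norm_num) 1 (63665 / 100000) [3, 2, 2, 2, 1, 1, 1, 1] 128 130 298704 s n (by omega) hus (by decide)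
      (by decide +kernel) (le_trans (Nat.mul_le_mul_left _ (by norm_num)) k4) h
      (by norm_num) (by norm_num) (by norm_num)
  rcases Nat.lt_or_ge n (4 ^ s * 133) with h | k6
  · exact step 128 (by norm_num) 1 (63665 / 100000) [3, 2, 2, 2, 1, 1, 1, 1, 0] 129 133 604000 s n (by omega) hus (by decide)
      (by decide +kernel) (le_trans (Nat.mul_le_mul_left _ (by norm_num)) k5) h
      (by norm_num) (by norm_num) (by norm_num)
  rcases Nat.lt_or_ge n (4 ^ s * 137) with h | k7
  · exact step 128 (by norm_num) 1 (63665 / 100000) [3, 2, 2, 2, 2, 1] 132 137 76624 s n (by omega) hus (by decide)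
      (by decide +kernel) (le_trans (Nat.mul_le_mul_left _ (by norm_num)) k6) h
      (by norm_num) (by norm_num) (by norm_num)
  rcases Nat.lt_or_ge n (4 ^ s * 140) with h | k8
  · exact step 128 (by norm_num) 1 (63665 / 100000) [3, 2, 2, 2, 2, 1, 1, 0] 137 140 310272 s n (by omega) hus (by decide)
      (by decide +kernel) (le_trans (Nat.mul_le_mul_left _ (by norm_num)) k7) h
      (by norm_num) (by norm_num) (by norm_num)
  rcases Nat.lt_or_ge n (4 ^ s * 144) with h | k9
  · exact step 128 (by norm_num) 1 (63665 / 100000) [3, 2, 2, 2, 2, 1, 1, 1] 140 144 314368 s n (by omega) hus (by decide)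
      (by decide +kernel) (le_trans (Nat.mul_le_mul_left _ (by norm_num)) k8) h
      (by norm_num) (by norm_num) (by norm_num)
  rcases Nat.lt_or_ge n (4 ^ s * 153) with h | k10
  · exact step 128 (by norm_num) 1 (63665 / 100000) [3, 3, 2] 144 153 10120 s n (by omega) hus (by decide)
      (by decide +kernel) (le_trans (Nat.mul_le_mul_left _ (by norm_num)) k9) h
      (by norm_num) (by norm_num) (by norm_num)
  rcases Nat.lt_or_ge n (4 ^ s * 156) with h | k11
  · exact step 128 (by norm_num) 1 (63665 / 100000) [3, 3, 2, 1, 1, 0] 153 156 81824 s n (by omega) hus (by decide)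
      (by decide +kernel) (le_trans (Nat.mul_le_mul_left _ (by norm_num)) k10) h
      (by norm_num) (by norm_num) (by norm_num)
  rcases Nat.lt_or_ge n (4 ^ s * 160) with h | k12
  · exact step 128 (by norm_num) 1 (63665 / 100000) [3, 3, 2, 1, 1, 1] 156 160 82848 s n (by omega) hus (by decide)
      (by decide +kernel) (le_trans (Nat.mul_le_mul_left _ (by norm_num)) k11) h
      (by norm_num) (by norm_num) (by norm_num)
  rcases Nat.lt_or_ge n (4 ^ s * 162) with h | k13
  · exact step 128 (by norm_num) 1 (63665 / 100000) [3, 3, 2, 1, 1, 1, 0, 0, 0] 159 162 666080 s n (by omega) hus (by decide)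
      (by decide +kernel) (le_trans (Nat.mul_le_mul_left _ (by norm_num)) k12) h
      (by norm_num) (by norm_num) (by norm_num)
  rcases Nat.lt_or_ge n (4 ^ s * 164) with h | k14
  · exact step 128 (by norm_num) 1 (63665 / 100000) [3, 3, 2, 1, 1, 1, 1, 0, 0] 162 164 670336 s n (by omega) hus (by decide)
      (by decide +kernel) (le_trans (Nat.mul_le_mul_left _ (by norm_num)) k13) h
      (by norm_num) (by norm_num) (by norm_num)
  rcases Nat.lt_or_ge n (4 ^ s * 168) with h | k15
  · exact step 128 (by norm_num) 1 (63665 / 100000) [3, 3, 2, 2, 1] 164 168 42448 s n (by omega) hus (by decide)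
      (by decide +kernel) (le_trans (Nat.mul_le_mul_left _ (by norm_num)) k14) h
      (by norm_num) (by norm_num) (by norm_num)
  rcases Nat.lt_or_ge n (4 ^ s * 170) with h | k16
  · exact step 128 (by norm_num) 1 (63665 / 100000) [3, 3, 2, 2, 1, 0, 0, 0, 0] 168 170 682784 s n (by omega) hus (by decide)
      (by decide +kernel) (le_trans (Nat.mul_le_mul_left _ (by norm_num)) k15) h
      (by norm_num) (by norm_num) (by norm_num)
  rcases Nat.lt_or_ge n (4 ^ s * 172) with h | k17
  · exact step 128 (by norm_num) 1 (63665 / 100000) [3, 3, 2, 2, 1, 1, 0] 169 172 171680 s n (by omega) hus (by decide)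
      (by decide +kernel) (le_trans (Nat.mul_le_mul_left _ (by norm_num)) k16) h
      (by norm_num) (by norm_num) (by norm_num)
  rcases Nat.lt_or_ge n (4 ^ s * 176) with h | k18
  · exact step 128 (by norm_num) 1 (63665 / 100000) [3, 3, 2, 2, 1, 1, 1] 172 176 173728 s n (by omega) hus (by decide)
      (by decide +kernel) (le_trans (Nat.mul_le_mul_left _ (by norm_num)) k17) h
      (by norm_num) (by norm_num) (by norm_num)
  rcases Nat.lt_or_ge n (4 ^ s * 185) with h | k19
  · exact step 128 (by norm_num) 1 (63665 / 100000) [3, 3, 2, 2, 2] 176 185 44496 s n (by omega) hus (by decide)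
      (by decide +kernel) (le_trans (Nat.mul_le_mul_left _ (by norm_num)) k18) h
      (by norm_num) (by norm_num) (by norm_num)
  rcases Nat.lt_or_ge n (4 ^ s * 188) with h | k20
  · exact step 128 (by norm_num) 1 (63665 / 100000) [3, 3, 2, 2, 2, 1, 1, 0] 185 188 358912 s n (by omega) hus (by decide)
      (by decide +kernel) (le_trans (Nat.mul_le_mul_left _ (by norm_num)) k19) h
      (by norm_num) (by norm_num) (by norm_num)
  rcases Nat.lt_or_ge n (4 ^ s * 192) with h | k21
  · exact step 128 (by norm_num) 1 (63665 / 100000) [3, 3, 2, 2, 2, 1, 1, 1] 188 192 362496 s n (by omega) hus (by decide)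
      (by decide +kernel) (le_trans (Nat.mul_le_mul_left _ (by norm_num)) k20) h
      (by norm_num) (by norm_num) (by norm_num)
  rcases Nat.lt_or_ge n (4 ^ s * 221) with h | k22
  · exact step 128 (by norm_num) 1 (63665 / 100000) [3, 3, 3] 192 221 12168 s n (by omega) hus (by decide)
      (by decide +kernel) (le_trans (Nat.mul_le_mul_left _ (by norm_num)) k21) h
      (by norm_num) (by norm_num) (by norm_num)
  rcases Nat.lt_or_ge n (4 ^ s * 228) with h | k23
  · exact step 128 (by norm_num) 1 (63665 / 100000) [3, 3, 3, 2, 1, 1, 1] 220 228 197400 s n (by omega) hus (by decide)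
      (by decide +kernel) (le_trans (Nat.mul_le_mul_left _ (by norm_num)) k22) h
      (by norm_num) (by norm_num) (by norm_num)
  rcases Nat.lt_or_ge n (4 ^ s * 234) with h | k24
  · exact step 128 (by norm_num) 1 (63665 / 100000) [3, 3, 3, 2, 2, 1] 228 234 100176 s n (by omega) hus (by decide)
      (by decide +kernel) (le_trans (Nat.mul_le_mul_left _ (by norm_num)) k23) h
      (by norm_num) (by norm_num) (by norm_num)
  rcases Nat.lt_or_ge n (4 ^ s * 238) with h | k25
  · exact step 128 (by norm_num) 1 (63665 / 100000) [3, 3, 3, 2, 2, 1, 1, 0, 0] 234 238 807312 s n (by omega) hus (by decide)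
      (by decide +kernel) (le_trans (Nat.mul_le_mul_left _ (by norm_num)) k24) h
      (by norm_num) (by norm_num) (by norm_num)
  rcases Nat.lt_or_ge n (4 ^ s * 241) with h | k26
  · exact step 128 (by norm_num) 1 (63665 / 100000) [3, 3, 3, 2, 2, 1, 1, 1] 236 241 406608 s n (by omega) hus (by decide)
      (by decide +kernel) (le_trans (Nat.mul_le_mul_left _ (by norm_num)) k25) h
      (by norm_num) (by norm_num) (by norm_num)
  rcases Nat.lt_or_ge n (4 ^ s * 249) with h | k27
  · exact step 128 (by norm_num) 1 (63665 / 100000) [3, 3, 3, 2, 2, 2] 240 249 103248 s n (by omega) hus (by decide)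
      (by decide +kernel) (le_trans (Nat.mul_le_mul_left _ (by norm_num)) k26) h
      (by norm_num) (by norm_num) (by norm_num)
  rcases Nat.lt_or_ge n (4 ^ s * 252) with h | k28
  · exact step 128 (by norm_num) 1 (63665 / 100000) [3, 3, 3, 2, 2, 2, 1, 1, 0] 249 252 830928 s n (by omega) hus (by decide)
      (by decide +kernel) (le_trans (Nat.mul_le_mul_left _ (by norm_num)) k27) h
      (by norm_num) (by norm_num) (by norm_num)
  exact step 128 (by norm_num) 1 (63665 / 100000) [3, 3, 3, 2, 2, 2, 1, 1, 1] 252 256 837072 s n (by omega) hus (by decide)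
    (by decide +kernel) (le_trans (Nat.mul_le_mul_left _ (by norm_num)) k28) h2
    (by norm_num) (by norm_num) (by norm_num)

/-- dimensions at least `4 ^ 13` -/
theorem cert_b (s n : ℕ) (hs : 10 ≤ s) (h1 : 4 ^ s * 64 ≤ n) (h2 : n < 4 ^ s * 256) :
    ∃ Λ : ℝ, 0 ≤ Λ ∧ HasCert n Λ ∧ (1011 / 1000 : ℝ) ^ 2 * (63665 / 100000 * n) < Λ ^ 2 := by
  have hus : ((1024 : ℕ) : ℝ) ≤ 2 ^ s := by
    calc ((1024 : ℕ) : ℝ) = 2 ^ 10 := by norm_num
      _ ≤ 2 ^ s := pow_le_pow_right₀ (by norm_num) hs
  rcases Nat.lt_or_ge n (4 ^ s * 98) with h | k0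
  · exact step 1024 (by norm_num) (1011 / 1000) (63665 / 100000) [3] 64 98 16364 s n (by omega) hus (by decide)
      (by decide +kernel) (le_trans (Nat.mul_le_mul_left _ (by norm_num)) h1) h
      (by norm_num) (by norm_num) (by norm_num)
  rcases Nat.lt_or_ge n (4 ^ s * 107) with h | k1
  · exact step 1024 (by norm_num) (1011 / 1000) (63665 / 100000) [3, 2, 1, 1, 1, 1, 0, 0] 98 107 2191616 s n (by omega) hus (by decide)
      (by decide +kernel) (le_trans (Nat.mul_le_mul_left _ (by norm_num)) k0) h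
      (by norm_num) (by norm_num) (by norm_num)
  rcases Nat.lt_or_ge n (4 ^ s * 115) with h | k2
  · exact step 1024 (by norm_num) (1011 / 1000) (63665 / 100000) [3, 2, 2, 1, 1, 0, 0, 0] 107 115 2273056 s n (by omega) hus (by decide)
      (by decide +kernel) (le_trans (Nat.mul_le_mul_left _ (by norm_num)) k1) h
      (by norm_num) (by norm_num) (by norm_num)
  rcases Nat.lt_or_ge n (4 ^ s * 124) with h | k3
  · exact step 1024 (by norm_num) (1011 / 1000) (63665 / 100000) [3, 2, 2, 2] 112 124 147216 s n (by omega) hus (by decide)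
      (by decide +kernel) (le_trans (Nat.mul_le_mul_left _ (by norm_num)) k2) h
      (by norm_num) (by norm_num) (by norm_num)
  rcases Nat.lt_or_ge n (4 ^ s * 130) with h | k4
  · exact step 1024 (by norm_num) (1011 / 1000) (63665 / 100000) [3, 2, 2, 2, 1, 1, 1] 124 130 1210096 s n (by omega) hus (by decide)
      (by decide +kernel) (le_trans (Nat.mul_le_mul_left _ (by norm_num)) k3) h
      (by norm_num) (by norm_num) (by norm_num)
  rcases Nat.lt_or_ge n (4 ^ s * 134) with h | k5
  · exact step 1024 (by norm_num) (1011 / 1000) (63665 / 100000) [3, 2, 2, 2, 1, 1, 1, 1, 0] 129 134 4904800 s n (by omega) hus (by decide)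
      (by decide +kernel) (le_trans (Nat.mul_le_mul_left _ (by norm_num)) k4) h
      (by norm_num) (by norm_num) (by norm_num)
  rcases Nat.lt_or_ge n (4 ^ s * 138) with h | k6
  · exact step 1024 (by norm_num) (1011 / 1000) (63665 / 100000) [3, 2, 2, 2, 2, 1] 132 138 621392 s n (by omega) hus (by decide)
      (by decide +kernel) (le_trans (Nat.mul_le_mul_left _ (by norm_num)) k5) h
      (by norm_num) (by norm_num) (by norm_num)
  rcases Nat.lt_or_ge n (4 ^ s * 141) with h | k7
  · exact step 1024 (by norm_num) (1011 / 1000) (63665 / 100000) [3, 2, 2, 2, 2, 1, 1, 0, 0] 138 141 5036352 s n (by omega) hus (by decide)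
      (by decide +kernel) (le_trans (Nat.mul_le_mul_left _ (by norm_num)) k6) h
      (by norm_num) (by norm_num) (by norm_num)
  rcases Nat.lt_or_ge n (4 ^ s * 145) with h | k8
  · exact step 1024 (by norm_num) (1011 / 1000) (63665 / 100000) [3, 2, 2, 2, 2, 1, 1, 1] 140 145 2550784 s n (by omega) hus (by decide)
      (by decide +kernel) (le_trans (Nat.mul_le_mul_left _ (by norm_num)) k7) h
      (by norm_num) (by norm_num) (by norm_num)
  rcases Nat.lt_or_ge n (4 ^ s * 153) with h | k9
  · exact step 1024 (by norm_num) (1011 / 1000) (63665 / 100000) [3, 3, 2] 144 153 81800 s n (by omega) hus (by decide)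
      (by decide +kernel) (le_trans (Nat.mul_le_mul_left _ (by norm_num)) k8) h
      (by norm_num) (by norm_num) (by norm_num)
  rcases Nat.lt_or_ge n (4 ^ s * 157) with h | k10
  · exact step 1024 (by norm_num) (1011 / 1000) (63665 / 100000) [3, 3, 2, 1, 1, 0] 153 157 662432 s n (by omega) hus (by decide)
      (by decide +kernel) (le_trans (Nat.mul_le_mul_left _ (by norm_num)) k9) h
      (by norm_num) (by norm_num) (by norm_num)
  rcases Nat.lt_or_ge n (4 ^ s * 160) with h | k11
  · exact step 1024 (by norm_num) (1011 / 1000) (63665 / 100000) [3, 3, 2, 1, 1, 1] 156 160 670624 s n (by omega) hus (by decide)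
      (by decide +kernel) (le_trans (Nat.mul_le_mul_left _ (by norm_num)) k10) h
      (by norm_num) (by norm_num) (by norm_num)
  rcases Nat.lt_or_ge n (4 ^ s * 162) with h | k12
  · exact step 1024 (by norm_num) (1011 / 1000) (63665 / 100000) [3, 3, 2, 1, 1, 1, 0, 0, 0] 159 162 5396960 s n (by omega) hus (by decide)
      (by decide +kernel) (le_trans (Nat.mul_le_mul_left _ (by norm_num)) k11) h
      (by norm_num) (by norm_num) (by norm_num)
  rcases Nat.lt_or_ge n (4 ^ s * 164) with h | k13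
  · exact step 1024 (by norm_num) (1011 / 1000) (63665 / 100000) [3, 3, 2, 1, 1, 1, 1, 0, 0] 162 164 5429888 s n (by omega) hus (by decide)
      (by decide +kernel) (le_trans (Nat.mul_le_mul_left _ (by norm_num)) k12) h
      (by norm_num) (by norm_num) (by norm_num)
  rcases Nat.lt_or_ge n (4 ^ s * 168) with h | k14
  · exact step 1024 (by norm_num) (1011 / 1000) (63665 / 100000) [3, 3, 2, 2, 1] 164 168 343504 s n (by omega) hus (by decide)
      (by decide +kernel) (le_trans (Nat.mul_le_mul_left _ (by norm_num)) k13) h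
      (by norm_num) (by norm_num) (by norm_num)
  rcases Nat.lt_or_ge n (4 ^ s * 170) with h | k15
  · exact step 1024 (by norm_num) (1011 / 1000) (63665 / 100000) [3, 3, 2, 2, 1, 0, 0, 0, 0] 168 170 5528352 s n (by omega) hus (by decide)
      (by decide +kernel) (le_trans (Nat.mul_le_mul_left _ (by norm_num)) k14) h
      (by norm_num) (by norm_num) (by norm_num)
  rcases Nat.lt_or_ge n (4 ^ s * 172) with h | k16
  · exact step 1024 (by norm_num) (1011 / 1000) (63665 / 100000) [3, 3, 2, 2, 1, 1, 0] 169 172 1390240 s n (by omega) hus (by decide)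
      (by decide +kernel) (le_trans (Nat.mul_le_mul_left _ (by norm_num)) k15) h
      (by norm_num) (by norm_num) (by norm_num)
  rcases Nat.lt_or_ge n (4 ^ s * 176) with h | k17
  · exact step 1024 (by norm_num) (1011 / 1000) (63665 / 100000) [3, 3, 2, 2, 1, 1, 1] 172 176 1406624 s n (by omega) hus (by decide)
      (by decide +kernel) (le_trans (Nat.mul_le_mul_left _ (by norm_num)) k16) h
      (by norm_num) (by norm_num) (by norm_num)
  rcases Nat.lt_or_ge n (4 ^ s * 185) with h | k18
  · exact step 1024 (by norm_num) (1011 / 1000) (63665 / 100000) [3, 3, 2, 2, 2] 176 185 359888 s n (by omega) hus (by decide)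
      (by decide +kernel) (le_trans (Nat.mul_le_mul_left _ (by norm_num)) k17) h
      (by norm_num) (by norm_num) (by norm_num)
  rcases Nat.lt_or_ge n (4 ^ s * 188) with h | k19
  · exact step 1024 (by norm_num) (1011 / 1000) (63665 / 100000) [3, 3, 2, 2, 2, 1, 1, 0] 185 188 2907136 s n (by omega) hus (by decide)
      (by decide +kernel) (le_trans (Nat.mul_le_mul_left _ (by norm_num)) k18) h
      (by norm_num) (by norm_num) (by norm_num)
  rcases Nat.lt_or_ge n (4 ^ s * 192) with h | k20
  · exact step 1024 (by norm_num) (1011 / 1000) (63665 / 100000) [3, 3, 2, 2, 2, 1, 1, 1] 188 192 2935808 s n (by omega) hus (by decide)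
      (by decide +kernel) (le_trans (Nat.mul_le_mul_left _ (by norm_num)) k19) h
      (by norm_num) (by norm_num) (by norm_num)
  rcases Nat.lt_or_ge n (4 ^ s * 220) with h | k21
  · exact step 1024 (by norm_num) (1011 / 1000) (63665 / 100000) [3, 3, 3] 192 220 98184 s n (by omega) hus (by decide)
      (by decide +kernel) (le_trans (Nat.mul_le_mul_left _ (by norm_num)) k20) h
      (by norm_num) (by norm_num) (by norm_num)
  rcases Nat.lt_or_ge n (4 ^ s * 227) with h | k22
  · exact step 1024 (by norm_num) (1011 / 1000) (63665 / 100000) [3, 3, 3, 2, 1, 1, 1] 220 227 1595160 s n (by omega) hus (by decide)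
      (by decide +kernel) (le_trans (Nat.mul_le_mul_left _ (by norm_num)) k21) h
      (by norm_num) (by norm_num) (by norm_num)
  rcases Nat.lt_or_ge n (4 ^ s * 231) with h | k23
  · exact step 1024 (by norm_num) (1011 / 1000) (63665 / 100000) [3, 3, 3, 2, 1, 1, 1, 1, 0] 225 231 6428832 s n (by omega) hus (by decide)
      (by decide +kernel) (le_trans (Nat.mul_le_mul_left _ (by norm_num)) k22) h
      (by norm_num) (by norm_num) (by norm_num)
  rcases Nat.lt_or_ge n (4 ^ s * 236) with h | k24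
  · exact step 1024 (by norm_num) (1011 / 1000) (63665 / 100000) [3, 3, 3, 2, 2, 1, 0, 0, 0] 231 236 6502560 s n (by omega) hus (by decide)
      (by decide +kernel) (le_trans (Nat.mul_le_mul_left _ (by norm_num)) k23) h
      (by norm_num) (by norm_num) (by norm_num)
  rcases Nat.lt_or_ge n (4 ^ s * 241) with h | k25
  · exact step 1024 (by norm_num) (1011 / 1000) (63665 / 100000) [3, 3, 3, 2, 2, 1, 1, 1] 236 241 3288144 s n (by omega) hus (by decide)
      (by decide +kernel) (le_trans (Nat.mul_le_mul_left _ (by norm_num)) k24) h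
      (by norm_num) (by norm_num) (by norm_num)
  rcases Nat.lt_or_ge n (4 ^ s * 249) with h | k26
  · exact step 1024 (by norm_num) (1011 / 1000) (63665 / 100000) [3, 3, 3, 2, 2, 2] 240 249 834384 s n (by omega) hus (by decide)
      (by decide +kernel) (le_trans (Nat.mul_le_mul_left _ (by norm_num)) k25) h
      (by norm_num) (by norm_num) (by norm_num)
  rcases Nat.lt_or_ge n (4 ^ s * 252) with h | k27
  · exact step 1024 (by norm_num) (1011 / 1000) (63665 / 100000) [3, 3, 3, 2, 2, 2, 1, 1, 0] 249 252 6723024 s n (by omega) hus (by decide)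
      (by decide +kernel) (le_trans (Nat.mul_le_mul_left _ (by norm_num)) k26) h
      (by norm_num) (by norm_num) (by norm_num)
  exact step 1024 (by norm_num) (1011 / 1000) (63665 / 100000) [3, 3, 3, 2, 2, 2, 1, 1, 1] 252 256 6772176 s n (by omega) hus (by decide)
    (by decide +kernel) (le_trans (Nat.mul_le_mul_left _ (by norm_num)) k27) h2
    (by norm_num) (by norm_num) (by norm_num)

theorem exists_s (n m : ℕ) (hm : 3 ≤ m) (hn : 4 ^ m ≤ n) :
    ∃ s, m ≤ s + 3 ∧ 4 ^ s * 64 ≤ n ∧ n < 4 ^ s * 256 := by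
  have hn0 : n ≠ 0 := by
    have : 0 < 4 ^ m := by positivity
    omega
  have h1 : m ≤ Nat.log 4 n := Nat.le_log_of_pow_le (by norm_num) hn
  have h2 : 4 ^ Nat.log 4 n ≤ n := Nat.pow_log_le_self 4 hn0
  have h3 : n < 4 ^ (Nat.log 4 n + 1) := Nat.lt_pow_succ_log_self (by norm_num) n
  obtain ⟨s, hs⟩ : ∃ s, Nat.log 4 n = s + 3 := ⟨Nat.log 4 n - 3, by omega⟩
  rw [hs] at h1 h2 h3
  refine ⟨s, by omega, ?_, ?_⟩
  · calc 4 ^ s * 64 = 4 ^ (s + 3) := by ring
      _ ≤ n := h2
  · calc n < 4 ^ (s + 3 + 1) := h3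
      _ = 4 ^ s * 256 := by ring

theorem main_a (n : ℕ) (hn : 4 ^ 10 ≤ n) :
    ∃ Λ : ℝ, 0 ≤ Λ ∧ HasCert n Λ ∧ (1 : ℝ) ^ 2 * (63665 / 100000 * n) < Λ ^ 2 := by
  obtain ⟨s, hs, h1, h2⟩ := exists_s n 10 (by norm_num) hn
  exact cert_a s n (by omega) h1 h2

theorem main_b (n : ℕ) (hn : 4 ^ 13 ≤ n) :
    ∃ Λ : ℝ, 0 ≤ Λ ∧ HasCert n Λ ∧ (1011 / 1000 : ℝ) ^ 2 * (63665 / 100000 * n) < Λ ^ 2 := by
  obtain ⟨s, hs, h1, h2⟩ := exists_s n 13 (by norm_num) hn
  exact cert_b s n (by omega) h1 h2

end Pool.Agent.Y178.ZN
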