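import Pool.Agent.Y178.ZN.Comb

/-!
# Certificates for the zonoid approximation constant: numerical part

Upper bound for `λ(C_n)` by Wallis' product, and the `ℓ₁`-sums of Kerdock bodies used in all large
dimensions.
-/

set_option autoImplicit false
open scoped Pointwise
open Filter Topology

namespace Pool.Agent.Y178.ZN

theorem HasCert.weaken {n : ℕ} {Λ Λ' : ℝ} (h : HasCert n Λ) (hle : Λ' ≤ Λ) : HasCert n Λ' := by
  obtain ⟨ι, κ, i1, i2, i3, w, α, b, h1, h2, h3, h4, h5, h6⟩ := h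
  exact ⟨ι, κ, i1, i2, i3, w, α, b, h1, h2, h3, h4, h5, hle.trans h6⟩

/-! ### central binomial coefficients -/

theorem cB_wallis (k : ℕ) : Real.Wallis.W k * ((Nat.centralBinom k : ℝ) ^ 2 * (2 * k + 1)) =
    16 ^ k := by
  rw [Real.Wallis.W_eq_factorial_ratio]
  have h1 : (Nat.centralBinom k : ℝ) * (k.factorial * k.factorial) = ((2 * k).factorial : ℝ) := by
    have h2 := Nat.choose_mul_factorial_mul_factorial (show k ≤ 2 * k by omega)
    have h3 : 2 * k - k = k := by omega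
    rw [h3] at h2
    rw [Nat.centralBinom_eq_two_mul_choose]
    have h4 : ((Nat.choose (2 * k) k * k.factorial * k.factorial : ℕ) : ℝ) =
        ((2 * k).factorial : ℝ) := by rw [h2]
    push_cast at h4
    linarith
  have h5 : (k.factorial : ℝ) ≠ 0 := by exact_mod_cast k.factorial_ne_zero
  have h6 : ((2 * k).factorial : ℝ) ≠ 0 := by exact_mod_cast (2 * k).factorial_ne_zero
  have h7 : (2 * (k : ℝ) + 1) ≠ 0 := by positivity
  have h8 : (Nat.centralBinom k : ℝ) = ((2 * k).factorial : ℝ) / (k.factorial * k.factorial) := by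
    rw [← h1]; field_simp
  rw [h8]
  have h9 : (16 : ℝ) ^ k = 2 ^ (4 * k) := by
    rw [pow_mul]; norm_num
  rw [h9]
  field_simp

theorem cB_sharp (k : ℕ) (G : ℝ) (hG : 0 < G) (h : 1 / G ≤ Real.Wallis.W k) :
    (Nat.centralBinom k : ℝ) ^ 2 * (2 * k + 1) ≤ G * 16 ^ k := by
  have h1 := cB_wallis k
  have h4 : 0 ≤ (Nat.centralBinom k : ℝ) ^ 2 * (2 * k + 1) := by positivity
  rw [← h1]
  rw [div_le_iff₀ hG] at h
  nlinarith

theorem wallis_a (k : ℕ) (hk : 2000 ≤ k) : (1 / (637 / 1000) : ℝ) ≤ Real.Wallis.W k := by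
  have h2 := Real.Wallis.le_W k
  have hk' : (2000 : ℝ) ≤ k := by exact_mod_cast hk
  have hpi := Real.pi_gt_d4
  refine le_trans ?_ h2
  rw [div_mul_eq_mul_div, le_div_iff₀ (by positivity)]
  nlinarith

theorem wallis_b (k : ℕ) (hk : 50000 ≤ k) : (1 / (63665 / 100000) : ℝ) ≤ Real.Wallis.W k := by
  have h2 := Real.Wallis.le_W k
  have hk' : (50000 : ℝ) ≤ k := by exact_mod_cast hk
  have hpi := Real.pi_gt_d6
  refine le_trans ?_ h2
  rw [div_mul_eq_mul_div, le_div_iff₀ (by positivity)]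
  nlinarith

/-- the second moment bound for the mean absolute value of a sum of signs -/
theorem mean_le (n : ℕ) (hn : 2 ≤ n) (G : ℝ) (hG : 0 < G)
    (hW : 1 / G ≤ Real.Wallis.W (n / 2)) :
    ((∑ ε : Fin n → Bool, |∑ i, (if ε i then (1:ℝ) else -1)|) / 2 ^ n) ^ 2 ≤ G * n := by
  have h0 : (∑ ε : Fin n → Bool, |∑ i, (if ε i then (1:ℝ) else -1)|) = (sA n : ℝ) := by
    unfold sA ssum
    push_cast
    rfl
  rw [h0]
  obtain ⟨k, hk | hk⟩ : ∃ k, n = 2 * k ∨ n = 2 * k + 1 := ⟨n / 2, by omega⟩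
  · have e : n / 2 = k := by omega
    rw [e] at hW
    subst hk
    have h1 := cB_sharp k G hG hW
    rw [sA_even]
    push_cast
    have hk0 : (0:ℝ) < k := by
      have : 0 < k := by omega
      exact_mod_cast this
    have h6 : ((2:ℝ) ^ (2 * k)) ^ 2 = 16 ^ k := by
      rw [← pow_mul, mul_comm (2 * k) 2, ← mul_assoc, pow_mul]
      norm_num
    rw [div_pow, h6, div_le_iff₀ (by positivity)]
    have h7 : (0:ℝ) < 16 ^ k := by positivity
    have h8 : 0 ≤ (Nat.centralBinom k : ℝ) ^ 2 := by positivity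
    have h9 : (Nat.centralBinom k : ℝ) ^ 2 * (2 * k) ≤ G * 16 ^ k := by
      nlinarith
    calc (2 * (k:ℝ) * (Nat.centralBinom k : ℝ)) ^ 2
        = 2 * (k:ℝ) * ((Nat.centralBinom k : ℝ) ^ 2 * (2 * (k:ℝ))) := by ring
      _ ≤ 2 * (k:ℝ) * (G * 16 ^ k) := by gcongr
      _ = G * (2 * (k:ℝ)) * 16 ^ k := by ring
  · have e : n / 2 = k := by omega
    rw [e] at hW
    subst hk
    have h1 := cB_sharp k G hG hW
    have h2 : sA (2 * k + 1) = 2 * (2 * k + 1) * (Nat.centralBinom k : ℤ) := by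
      rw [sA_succ, sA_even, sZ_even]; ring
    rw [h2]
    push_cast
    have h6 : ((2:ℝ) ^ (2 * k + 1)) ^ 2 = 4 * 16 ^ k := by
      have : ((2:ℝ) ^ (2 * k)) ^ 2 = 16 ^ k := by
        rw [← pow_mul, mul_comm (2 * k) 2, ← mul_assoc, pow_mul]
        norm_num
      rw [pow_succ (2:ℝ) (2 * k), mul_pow, this]; norm_num; ring
    rw [div_pow, h6, div_le_iff₀ (by positivity)]
    have h3 : 0 ≤ 4 * (2 * (k:ℝ) + 1) := by positivity
    calc (2 * (2 * (k:ℝ) + 1) * (Nat.centralBinom k : ℝ)) ^ 2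
        = 4 * (2 * (k:ℝ) + 1) * ((Nat.centralBinom k : ℝ) ^ 2 * (2 * k + 1)) := by ring
      _ ≤ 4 * (2 * (k:ℝ) + 1) * (G * 16 ^ k) := by gcongr
      _ = G * (2 * k + 1) * (4 * 16 ^ k) := by ring

/-! ### sums over sign vectors, by recursion over a list of exponents -/

/-- `∑ |x ± (u 2 ^ e₁ - 10) ± (u 2 ^ e₂ - 10) ± ...|` over all choices of signs -/
def gsum (u : ℕ) : List ℕ → ℤ → ℤ
  | [], x => |x|
  | e :: l, x => gsum u l (x + ((u : ℤ) * 2 ^ e - 10)) + gsum u l (x - ((u : ℤ) * 2 ^ e - 10))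

theorem gsum_eq (u : ℕ) (l : List ℕ) : ∀ x : ℤ,
    ∑ ε : Fin l.length → Bool, |(x : ℝ) + ∑ i, sgE (ε i) * ((u : ℝ) * 2 ^ (l.get i) - 10)| =
      (gsum u l x : ℝ) := by
  induction l with
  | nil =>
    intro x
    simp [gsum]
  | cons e l ih =>
    intro x
    have h1 := ih (x + ((u : ℤ) * 2 ^ e - 10))
    have h2 := ih (x - ((u : ℤ) * 2 ^ e - 10))
    show ∑ ε : Fin (l.length + 1) → Bool,
      |(x : ℝ) + ∑ i : Fin (l.length + 1), sgE (ε i) * ((u : ℝ) * 2 ^ ((e :: l).get i) - 10)| = _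
    rw [sum_cons, Fintype.sum_bool]
    have hg0 : (e :: l).get (0 : Fin (l.length + 1)) = e := rfl
    have hg : ∀ i : Fin l.length, (e :: l).get (Fin.succ i) = l.get i := fun _ => rfl
    simp only [Fin.sum_univ_succ, Fin.cons_zero, Fin.cons_succ, hg0, hg]
    unfold gsum
    push_cast at h1 h2 ⊢
    rw [← h1, ← h2]
    congr 1
    · apply Finset.sum_congr rfl
      intro ε _
      congr 1
      simp only [sgE, if_true]
      ring
    · apply Finset.sum_congr rfl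
      intro ε _
      congr 1
      simp only [sgE, Bool.false_eq_true, if_false]
      ring

/-- the `ℓ₁`-sum of the Kerdock bodies of dimensions `4 ^ (s + e)`, `e ∈ l` -/
theorem cert_list (u : ℕ) (hu : 10 ≤ u) (l : List ℕ) (s : ℕ) (hs : 3 ≤ s)
    (hus : (u : ℝ) ≤ 2 ^ s) :
    HasCert (4 ^ s * (l.map (fun e => 4 ^ e)).sum)
      ((2:ℝ) ^ s / u * (gsum u l 0 / 2 ^ l.length)) := by
  have hu' : (10 : ℝ) ≤ u := by exact_mod_cast hu
  have hu0 : (0 : ℝ) < u := by linarith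
  have hr : (1 : ℝ) ≤ 2 ^ s / u := by rw [le_div_iff₀ hu0]; linarith
  have hlam : ∀ e : ℕ, (0:ℝ) ≤ 2 ^ s / u * ((u : ℝ) * 2 ^ e - 10) := by
    intro e
    have h1 : (1:ℝ) ≤ 2 ^ e := one_le_pow₀ (by norm_num)
    have h2 : (0:ℝ) ≤ (u : ℝ) * 2 ^ e - 10 := by nlinarith
    positivity
  have hle : ∀ e : ℕ, 2 ^ s / u * ((u : ℝ) * 2 ^ e - 10) ≤ 2 ^ (s + e) - 10 := by
    intro e
    have h1 : 2 ^ s / u * ((u : ℝ) * 2 ^ e - 10) = 2 ^ (s + e) - 2 ^ s / u * 10 := by
      rw [pow_add]; field_simp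
    rw [h1]; linarith
  have h := HasCert.sum (I := Fin l.length) (fun i => 4 ^ (s + l.get i))
    (fun i => 2 ^ s / u * ((u : ℝ) * 2 ^ (l.get i) - 10)) (fun i => hlam _)
    (fun i => (cert_four_pow (s + l.get i) (by omega)).weaken (hle _))
  have hN : ∑ i : Fin l.length, 4 ^ (s + l.get i) = 4 ^ s * (l.map (fun e => 4 ^ e)).sum := by
    simp only [pow_add]
    rw [← Finset.mul_sum]
    congr 1
    rw [← List.sum_ofFn]
    congr 1
    apply List.ext_get
    · simp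
    · intro n h1 h2
      simp
  rw [hN] at h
  refine h.weaken ?_
  rw [Fintype.card_fin]
  have h2 : (0:ℝ) < 2 ^ l.length := by positivity
  have hg := gsum_eq u l 0
  simp only [Int.cast_zero, zero_add] at hg
  rw [← hg]
  have h3 : ∀ ε : Fin l.length → Bool,
      |∑ i, sgE (ε i) * (2 ^ s / u * ((u : ℝ) * 2 ^ (l.get i) - 10))| =
      2 ^ s / u * |∑ i, sgE (ε i) * ((u : ℝ) * 2 ^ (l.get i) - 10)| := by
    intro ε
    have h4 : ∑ i, sgE (ε i) * (2 ^ s / u * ((u : ℝ) * 2 ^ (l.get i) - 10)) =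
        2 ^ s / u * ∑ i, sgE (ε i) * ((u : ℝ) * 2 ^ (l.get i) - 10) := by
      rw [Finset.mul_sum]
      apply Finset.sum_congr rfl
      intro i _
      ring
    rw [h4, abs_mul, abs_of_nonneg (by linarith : (0:ℝ) ≤ 2 ^ s / u)]
  simp only [h3]
  rw [← Finset.mul_sum, mul_div_assoc]

end Pool.Agent.Y178.ZN
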